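import Pool.Agent.K7.H37.UK.Stm

/-!
# Job DYN of project UK (helper37): the strategy of N

Author: helper55.
-/

set_option autoImplicit false

namespace Pool.Agent.K7.H55.UK

open Pool.Agent.K7.H37.UK

/-- `Bot` for `τ = 1`, `Top` for `τ = -1` -/
def T (d : Fin 3 → ℕ) (τ : ℤ) (v : V) : Prop := (τ = 1 → Bot v) ∧ (τ = -1 → Top d v)

def Has (d : Fin 3 → ℕ) (P : List V) (τ x : ℤ) : Prop := ∃ a ∈ P, lev a = x ∧ T d τ a

theorem Has.mono {d : Fin 3 → ℕ} {P Q : List V} {τ x : ℤ} (h : Has d P τ x)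
    (hPQ : ∀ a ∈ P, a ∈ Q) : Has d Q τ x := by
  obtain ⟨a, ha, h1, h2⟩ := h
  exact ⟨a, hPQ a ha, h1, h2⟩

theorem adj_symm {p q : V} (h : Adj p q) : Adj q p := by
  unfold Adj at *
  rw [abs_sub_comm (q 0), abs_sub_comm (q 1), abs_sub_comm (q 2)]
  exact h

theorem adj_lev {p q : V} (h : Adj p q) : lev q = lev p + 1 ∨ lev q = lev p - 1 := by
  unfold Adj at h
  unfold lev
  rcases abs_cases (p 0 - q 0) with h0 | h0 <;> rcases abs_cases (p 1 - q 1) with h1 | h1 <;>
    rcases abs_cases (p 2 - q 2) with h2 | h2 <;> omega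

theorem nbr (hN : StNbr) {d : Fin 3 → ℕ} (hd : ∀ i, 1 ≤ d i) {u v : V} (hu : InBox d u)
    (hv : InBox d v) (ha : Adj u v) :
    (∃ w, InBox d w ∧ Adj v w ∧ w ≠ u ∧ lev w = lev u) ∨
    ∃ τ : ℤ, (τ = 1 ∨ τ = -1) ∧ lev v = lev u + τ ∧ T d τ v ∧
      ∃ w, InBox d w ∧ Adj v w ∧ w ≠ u ∧ lev w = lev u + 2 * τ := by
  rcases hN d hd u v hu hv ha with h | ⟨h1, h2, w, h3, h4, h5, h6⟩ | ⟨h1, h2, w, h3, h4, h5, h6⟩
  · exact Or.inl h
  · exact Or.inr ⟨1, Or.inl rfl, h1, ⟨fun _ => h2, fun h => absurd h (by norm_num)⟩, w, h3, h4, h5,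
      by omega⟩
  · exact Or.inr ⟨-1, Or.inr rfl, by omega, ⟨fun h => absurd h (by norm_num), fun _ => h2⟩, w, h3,
      h4, h5, by omega⟩

theorem uniq (hU : StUniq) {d : Fin 3 → ℕ} (hd : ∀ i, 1 ≤ d i) {P : List V}
    (hP : ∀ a ∈ P, InBox d a) {v : V} (hv : InBox d v) {τ x : ℤ} (hτ : τ = 1 ∨ τ = -1)
    (hx : lev v = x) (h1 : Has d P τ x) (h2 : Has d P (-τ) x) (ht : T d τ v) : v ∈ P := by
  obtain ⟨a, ha, ha1, ha2⟩ := h1
  obtain ⟨b, hb, hb1, hb2⟩ := h2
  rcases hτ with rfl | rfl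
  · have := (hU d hd a b v (hP a ha) (hP b hb) hv (ha2.1 rfl) (hb2.2 rfl) (by omega) (by omega)).1
      (ht.1 rfl)
    rw [this]
    exact ha
  · have := (hU d hd b a v (hP b hb) (hP a ha) hv (hb2.1 (by norm_num)) (ha2.2 rfl) (by omega)
      (by omega)).2 (ht.2 rfl)
    rw [this]
    exact ha

/-- the conditions for the runs -/
def RC (d : Fin 3 → ℕ) (P : List V) (σ s0 s : ℤ) (r : ℕ) : Prop :=
  (r = 0 ∧ ∀ x, ¬ (2 : ℤ) ∣ x - s0 → σ * s0 < σ * x → σ * x < σ * s → Has d P σ x) ∨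
  (r = 1 ∧ ∃ mx : ℤ, (2 : ℤ) ∣ mx - s0 ∧ σ * s0 < σ * mx ∧ σ * s < σ * mx ∧
    (∀ x, ¬ (2 : ℤ) ∣ x - s0 → σ * s0 < σ * x → σ * x < σ * mx → Has d P σ x) ∧
    (∀ x, ¬ (2 : ℤ) ∣ x - s0 → σ * s < σ * x → σ * x < σ * mx → Has d P (-σ) x)) ∨
  (r = 2 ∧ ∃ mx mn : ℤ, (2 : ℤ) ∣ mx - s0 ∧ (2 : ℤ) ∣ mn - s0 ∧ σ * mn < σ * s ∧
    σ * s ≤ σ * s0 ∧ σ * s0 < σ * mx ∧
    (∀ x, ¬ (2 : ℤ) ∣ x - s0 → σ * s0 < σ * x → σ * x < σ * mx → Has d P σ x) ∧
    (∀ x, ¬ (2 : ℤ) ∣ x - s0 → σ * mn < σ * x → σ * x < σ * mx → Has d P (-σ) x) ∧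
    (∀ x, ¬ (2 : ℤ) ∣ x - s0 → σ * mn < σ * x → σ * x < σ * s → Has d P σ x))

theorem RC.mono {d : Fin 3 → ℕ} {P Q : List V} {σ s0 s : ℤ} {r : ℕ} (h : RC d P σ s0 s r)
    (hPQ : ∀ a ∈ P, a ∈ Q) : RC d Q σ s0 s r := by
  rcases h with ⟨h1, h2⟩ | ⟨h1, mx, h2, h3, h4, h5, h6⟩ | ⟨h1, mx, mn, h2, h3, h4, h5, h6, h7, h8, h9⟩
  · exact Or.inl ⟨h1, fun x a b c => (h2 x a b c).mono hPQ⟩
  · exact Or.inr (Or.inl ⟨h1, mx, h2, h3, h4, fun x a b c => (h5 x a b c).mono hPQ,
      fun x a b c => (h6 x a b c).mono hPQ⟩)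
  · exact Or.inr (Or.inr ⟨h1, mx, mn, h2, h3, h4, h5, h6, fun x a b c => (h7 x a b c).mono hPQ,
      fun x a b c => (h8 x a b c).mono hPQ, fun x a b c => (h9 x a b c).mono hPQ⟩)

theorem ext {σ s0 : ℤ} {u : V} {s : ℤ} {r : ℕ} {A : List Entry} (h : Ann σ s0 ((u, s, r) :: A))
    {v : V} {s' : ℤ} {r' : ℕ} (hv : v ∉ ((u, s, r) :: A).map Prod.fst) (ha : Adj v u)
    (hc : |lev v - s'| ≤ 1) (hr : r ≤ r') (hr2 : r' ≤ 2) (h0 : r' = 0 → σ * s ≤ σ * s')
    (h1 : r' = 1 → r = 1 → σ * s' ≤ σ * s) (h2 : r' = 2 → r = 2 → σ * s ≤ σ * s')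
    (hb2 : r' = 2 → σ * s' ≤ σ * s0) : Ann σ s0 ((v, s', r') :: (u, s, r) :: A) := by
  have hrm : ∀ x ∈ A, x.2.2 ≤ r := (List.pairwise_cons.1 h.run_mono).1
  refine ⟨?_, ?_, ?_, ?_, ?_, ?_, ?_, ?_, ?_, ?_⟩
  · rw [List.map_cons, List.nodup_cons]
    exact ⟨hv, h.nodup⟩
  · have := h.chain
    rw [List.map_cons] at this ⊢
    rw [List.map_cons]
    exact List.IsChain.cons_cons ha this
  · intro x hx
    rcases List.mem_cons.1 hx with rfl | hx
    · exact hc
    · exact h.close x hx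
  · intro x hx
    rcases List.mem_cons.1 hx with rfl | hx
    · exact hr2
    · exact h.run_le x hx
  · refine List.pairwise_cons.2 ⟨fun x hx => ?_, h.run_mono⟩
    rcases List.mem_cons.1 hx with rfl | hx
    · exact hr
    · exact (hrm x hx).trans hr
  · refine List.pairwise_cons.2 ⟨fun x hx hy hx0 => ?_, h.mono0⟩
    have hy' : r' = 0 := hy
    rcases List.mem_cons.1 hx with rfl | hx
    · exact h0 hy'
    · have h3 := (List.pairwise_cons.1 h.mono0).1 x hx (show r = 0 by omega) hx0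
      exact le_trans h3 (h0 hy')
  · refine List.pairwise_cons.2 ⟨fun x hx hy hx0 => ?_, h.mono1⟩
    have hy' : r' = 1 := hy
    rcases List.mem_cons.1 hx with rfl | hx
    · exact h1 hy' hx0
    · have h4 := hrm x hx
      have hr1 : r = 1 := by omega
      have h3 := (List.pairwise_cons.1 h.mono1).1 x hx hr1 hx0
      exact le_trans (h1 hy' hr1) h3
  · refine List.pairwise_cons.2 ⟨fun x hx hy hx0 => ?_, h.mono2⟩
    have hy' : r' = 2 := hy
    rcases List.mem_cons.1 hx with rfl | hx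
    · exact h2 hy' hx0
    · have h4 := hrm x hx
      have hr1 : r = 2 := by omega
      have h3 := (List.pairwise_cons.1 h.mono2).1 x hx hr1 hx0
      exact le_trans h3 (h2 hy' hr1)
  · intro x hx hx0
    rcases List.mem_cons.1 hx with rfl | hx
    · have hy' : r' = 0 := hx0
      have h5 := h.base0 (u, s, r) List.mem_cons_self (show r = 0 by omega)
      exact le_trans h5 (h0 hy')
    · exact h.base0 x hx hx0
  · intro x hx hx0
    rcases List.mem_cons.1 hx with rfl | hx
    · exact hb2 hx0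
    · exact h.base2 x hx hx0

/-- change of the direction when all homes are equal -/
theorem switch {σ s0 : ℤ} {u : V} {s : ℤ} {A : List Entry} (h : Ann σ s0 ((u, s, 0) :: A))
    (hs : σ * s ≤ σ * s0) : Ann (-σ) s0 ((u, s, 0) :: A) := by
  have hrun : ∀ x ∈ (u, s, 0) :: A, x.2.2 = 0 := by
    intro x hx
    rcases List.mem_cons.1 hx with rfl | hx
    · rfl
    · have := (List.pairwise_cons.1 h.run_mono).1 x hx
      exact Nat.le_zero.1 this
  have hhome : ∀ x ∈ (u, s, 0) :: A, σ * x.2.1 = σ * s0 := by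
    intro x hx
    refine le_antisymm ?_ (h.base0 x hx (hrun x hx))
    rcases List.mem_cons.1 hx with rfl | hx'
    · exact hs
    · exact ((List.pairwise_cons.1 h.mono0).1 x hx' rfl (hrun x hx)).trans hs
  refine ⟨h.nodup, h.chain, h.close, h.run_le, h.run_mono, ?_, ?_, ?_, ?_, ?_⟩
  · refine List.Pairwise.imp_of_mem (fun {y x} hy hx _ _ _ => ?_) h.mono0
    have h1 := hhome y hy
    have h2 := hhome x hx
    rw [neg_mul, neg_mul, h1, h2]
  · refine List.Pairwise.imp_of_mem (fun {y x} hy hx _ h3 _ => ?_) h.mono0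
    rw [hrun y hy] at h3
    exact absurd h3 (by norm_num)
  · refine List.Pairwise.imp_of_mem (fun {y x} hy hx _ h3 _ => ?_) h.mono0
    rw [hrun y hy] at h3
    exact absurd h3 (by norm_num)
  · intro x hx _
    rw [neg_mul, neg_mul, hhome x hx]
  · intro x hx h3
    rw [hrun x hx] at h3
    exact absurd h3 (by norm_num)

/-- the invariant -/
def Inv (d : Fin 3 → ℕ) (P : List V) : Prop :=
  (∀ v ∈ P, InBox d v) ∧ ∃ (σ s0 : ℤ) (u : V) (s : ℤ) (r : ℕ) (A : List Entry),
    (σ = 1 ∨ σ = -1) ∧ Ann σ s0 ((u, s, r) :: A) ∧ ((u, s, r) :: A).map Prod.fst = P ∧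
      lev u = s ∧ (2 : ℤ) ∣ s - s0 ∧ RC d P σ s0 s r

/-- the position after the answer `w` of N to the move `v` of K -/
theorem after {d : Fin 3 → ℕ} {σ s0 : ℤ} {u : V} {s : ℤ} {r : ℕ} {A : List Entry}
    (hσ : σ = 1 ∨ σ = -1) (h : Ann σ s0 ((u, s, r) :: A)) (hu : lev u = s)
    {v w : V} (hbox : ∀ a ∈ (v :: ((u, s, r) :: A).map Prod.fst), InBox d a) (hw : InBox d w)
    (huv : Adj u v) (hvw : Adj v w) (hv : v ∉ ((u, s, r) :: A).map Prod.fst)
    (hwn : w ∉ v :: ((u, s, r) :: A).map Prod.fst) {s' : ℤ} {r' : ℕ} (hws : lev w = s')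
    (hp : (2 : ℤ) ∣ s' - s0)
    (hr : r ≤ r') (hr2 : r' ≤ 2) (h0 : r' = 0 → σ * s ≤ σ * s')
    (h1 : r' = 1 → r = 1 → σ * s' ≤ σ * s) (h2 : r' = 2 → r = 2 → σ * s ≤ σ * s')
    (hb2 : r' = 2 → σ * s' ≤ σ * s0)
    (hRC : RC d (w :: v :: ((u, s, r) :: A).map Prod.fst) σ s0 s' r') :
    Inv d (w :: v :: ((u, s, r) :: A).map Prod.fst) := by
  have hvl := adj_lev huv
  have hv1 : Ann σ s0 ((v, s, r) :: (u, s, r) :: A) := by
    refine ext h hv (adj_symm huv) ?_ le_rfl (h.run_le _ List.mem_cons_self) (fun _ => le_rfl)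
      (fun _ _ => le_rfl) (fun _ _ => le_rfl) (fun hr => h.base2 _ List.mem_cons_self hr)
    rw [abs_le]
    omega
  have hwn' : w ∉ ((v, s, r) :: (u, s, r) :: A).map Prod.fst := by
    rw [List.map_cons]
    exact hwn
  have hv2 : Ann σ s0 ((w, s', r') :: (v, s, r) :: (u, s, r) :: A) :=
    ext hv1 hwn' (adj_symm hvw) (by rw [hws, sub_self, abs_zero]; norm_num) hr hr2 h0 h1 h2 hb2
  refine ⟨?_, σ, s0, w, s', r', _, hσ, hv2, by simp only [List.map_cons], hws, hp, hRC⟩
  intro a ha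
  rcases List.mem_cons.1 ha with rfl | ha
  · exact hw
  · exact hbox a ha

theorem step (hA : StAnn) (hN : StNbr) (hU : StUniq) {d : Fin 3 → ℕ} (hd : ∀ i, 1 ≤ d i) {σ s0 : ℤ}
    {u : V} {s : ℤ} {r : ℕ} {A : List Entry} (hσ : σ = 1 ∨ σ = -1)
    (h : Ann σ s0 ((u, s, r) :: A)) (hu : lev u = s) (hs : (2 : ℤ) ∣ s - s0)
    (hRC : RC d (((u, s, r) :: A).map Prod.fst) σ s0 s r)
    (hbox : ∀ a ∈ ((u, s, r) :: A).map Prod.fst, InBox d a) {v : V} (hvb : InBox d v)
    (huv : Adj u v) (hv : v ∉ ((u, s, r) :: A).map Prod.fst) :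
    GoodPath (v :: ((u, s, r) :: A).map Prod.fst) ∧ ∃ w, InBox d w ∧ Adj v w ∧ w ≠ u ∧
      (w ∉ v :: ((u, s, r) :: A).map Prod.fst → Inv d (w :: v :: ((u, s, r) :: A).map Prod.fst)) := by
  have hvl := adj_lev huv
  have hubox : InBox d u := hbox u (by simp)
  have hbox' : ∀ a ∈ (v :: ((u, s, r) :: A).map Prod.fst), InBox d a := by
    intro a ha
    rcases List.mem_cons.1 ha with rfl | ha
    · exact hvb
    · exact hbox a ha
  constructor
  · have hv1 : Ann σ s0 ((v, s, r) :: (u, s, r) :: A) := by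
      refine ext h hv (adj_symm huv) ?_ le_rfl (h.run_le _ List.mem_cons_self) (fun _ => le_rfl)
        (fun _ _ => le_rfl) (fun _ _ => le_rfl) (fun hr => h.base2 _ List.mem_cons_self hr)
      rw [abs_le]
      omega
    have := hA σ s0 _ hσ hv1
    rwa [List.map_cons] at this
  rcases nbr hN hd hubox hvb huv with ⟨w, hwb, hvw, hwu, hwl⟩ | ⟨τ, hτ, hvτ, hvT, w, hwb, hvw, hwu, hwl⟩
  · -- the same home
    refine ⟨w, hwb, hvw, hwu, fun hwn => ?_⟩
    refine after hσ h hu hbox' hwb huv hvw hv hwn (s' := s) (r' := r) (by omega) hs le_rfl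
      (h.run_le _ List.mem_cons_self) (fun _ => le_rfl)
      (fun _ _ => le_rfl) (fun _ _ => le_rfl) (fun hr => h.base2 _ List.mem_cons_self hr)
      (hRC.mono fun a ha => ?_)
    exact List.mem_cons_of_mem _ (List.mem_cons_of_mem _ ha)
  · refine ⟨w, hwb, hvw, hwu, fun hwn => ?_⟩
    have hmem : ∀ a ∈ ((u, s, r) :: A).map Prod.fst,
        a ∈ w :: v :: ((u, s, r) :: A).map Prod.fst := fun a ha =>
      List.mem_cons_of_mem _ (List.mem_cons_of_mem _ ha)
    have hvT' : Has d (w :: v :: ((u, s, r) :: A).map Prod.fst) τ (s + τ) :=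
      ⟨v, by simp, by omega, hvT⟩
    have hle2 := h.run_le _ List.mem_cons_self
    -- the crossing in the direction of the run
    have fwd0 : ∀ {σ : ℤ}, (σ = 1 ∨ σ = -1) → Ann σ s0 ((u, s, r) :: A) → r = 0 → τ = σ →
        (∀ x, ¬ (2 : ℤ) ∣ x - s0 → σ * s0 < σ * x → σ * x < σ * s →
          Has d (((u, s, r) :: A).map Prod.fst) σ x) →
        Inv d (w :: v :: ((u, s, r) :: A).map Prod.fst) := by
      intro σ hσ h hr0 hτσ hRC
      subst hτσ
      subst hr0
      refine after hσ h hu hbox' hwb huv hvw hv hwn (s' := s + 2 * τ) (r' := 0) (by omega)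
        (by omega) le_rfl (by norm_num) (fun _ => ?_) (fun h => absurd h (by norm_num))
        (fun h => absurd h (by norm_num)) (fun h => absurd h (by norm_num)) (Or.inl ⟨rfl, ?_⟩)
      · rcases hσ with rfl | rfl <;> omega
      · intro x hx1 hx2 hx3
        by_cases hx4 : τ * x < τ * s
        · exact (hRC x hx1 hx2 hx4).mono hmem
        · have : x = s + τ := by rcases hσ with rfl | rfl <;> omega
          rw [this]
          exact hvT'
    rcases hRC with ⟨h1, h2⟩ | ⟨h1, mx, h2, h3, h4, h5, h6⟩ |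
      ⟨h1, mx, mn, h2, h3, h4, h5, h6, h7, h8, h9⟩
    · -- run 0
      by_cases hτσ : τ = σ
      · exact fwd0 hσ h h1 hτσ h2
      have hτσ' : τ = -σ := by rcases hσ with rfl | rfl <;> rcases hτ with rfl | rfl <;> omega
      by_cases hss : σ * s ≤ σ * s0
      · subst h1
        have h3 := switch h hss
        refine fwd0 (σ := -σ) (by rcases hσ with rfl | rfl <;> simp) h3 rfl hτσ' ?_
        intro x hx1 hx2 hx3
        have h4 := h.base0 _ List.mem_cons_self rfl
        exfalso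
        rcases hσ with rfl | rfl <;> simp only [] at h4 <;> omega
      · -- the beginning of run 1
        refine after hσ h hu hbox' hwb huv hvw hv hwn (s' := s + 2 * τ) (r' := 1) (by omega)
          (by omega) (by omega) (by norm_num) (fun h => absurd h (by norm_num)) (fun _ hr1 => by omega)
          (fun h => absurd h (by norm_num)) (fun h => absurd h (by norm_num))
          (Or.inr (Or.inl ⟨rfl, s, hs, by omega, ?_, ?_, ?_⟩))
        · rcases hσ with rfl | rfl <;> omega
        · intro x hx1 hx2 hx3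
          exact (h2 x hx1 hx2 hx3).mono hmem
        · intro x hx1 hx2 hx3
          have : x = s + τ := by rcases hσ with rfl | rfl <;> omega
          rw [this, ← hτσ']
          exact hvT'
    · -- run 1
      subst h1
      by_cases hτσ : τ = σ
      · subst hτσ
        by_cases hss : τ * s < τ * s0
        · -- the beginning of run 2
          refine after hσ h hu hbox' hwb huv hvw hv hwn (s' := s + 2 * τ) (r' := 2) (by omega)
            (by omega) (by norm_num) le_rfl (fun h => absurd h (by norm_num))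
            (fun h => absurd h (by norm_num)) (fun _ h => absurd h (by norm_num)) (fun _ => ?_)
            (Or.inr (Or.inr ⟨rfl, mx, s, h2, hs, ?_, ?_, h3, ?_, ?_, ?_⟩))
          · rcases hσ with rfl | rfl <;> omega
          · rcases hσ with rfl | rfl <;> omega
          · rcases hσ with rfl | rfl <;> omega
          · intro x hx1 hx2 hx3
            exact (h5 x hx1 hx2 hx3).mono hmem
          · intro x hx1 hx2 hx3
            exact (h6 x hx1 hx2 hx3).mono hmem
          · intro x hx1 hx2 hx3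
            have : x = s + τ := by rcases hσ with rfl | rfl <;> omega
            rw [this]
            exact hvT'
        · exfalso
          apply hv
          refine uniq hU hd hbox hvb hσ (x := s + τ) (by omega) (h5 _ ?_ ?_ ?_) (h6 _ ?_ ?_ ?_) hvT <;>
            rcases hσ with rfl | rfl <;> omega
      · have hτσ' : τ = -σ := by rcases hσ with rfl | rfl <;> rcases hτ with rfl | rfl <;> omega
        refine after hσ h hu hbox' hwb huv hvw hv hwn (s' := s + 2 * τ) (r' := 1) (by omega)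
          (by omega) le_rfl (by norm_num) (fun h => absurd h (by norm_num)) (fun _ _ => ?_)
          (fun h => absurd h (by norm_num)) (fun h => absurd h (by norm_num))
          (Or.inr (Or.inl ⟨rfl, mx, h2, h3, ?_, ?_, ?_⟩))
        · rcases hσ with rfl | rfl <;> omega
        · rcases hσ with rfl | rfl <;> omega
        · intro x hx1 hx2 hx3
          exact (h5 x hx1 hx2 hx3).mono hmem
        · intro x hx1 hx2 hx3
          by_cases hx4 : σ * s < σ * x
          · exact (h6 x hx1 hx4 hx3).mono hmem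
          · have : x = s + τ := by rcases hσ with rfl | rfl <;> omega
            rw [this, ← hτσ']
            exact hvT'
    · -- run 2
      subst h1
      by_cases hτσ : τ = σ
      · subst hτσ
        by_cases hss : τ * s < τ * s0
        · refine after hσ h hu hbox' hwb huv hvw hv hwn (s' := s + 2 * τ) (r' := 2) (by omega)
            (by omega) le_rfl le_rfl (fun h => absurd h (by norm_num))
            (fun h => absurd h (by norm_num)) (fun _ _ => ?_) (fun _ => ?_)
            (Or.inr (Or.inr ⟨rfl, mx, mn, h2, h3, ?_, ?_, h6, ?_, ?_, ?_⟩))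
          · rcases hσ with rfl | rfl <;> omega
          · rcases hσ with rfl | rfl <;> omega
          · rcases hσ with rfl | rfl <;> omega
          · rcases hσ with rfl | rfl <;> omega
          · intro x hx1 hx2 hx3
            exact (h7 x hx1 hx2 hx3).mono hmem
          · intro x hx1 hx2 hx3
            exact (h8 x hx1 hx2 hx3).mono hmem
          · intro x hx1 hx2 hx3
            by_cases hx4 : τ * x < τ * s
            · exact (h9 x hx1 hx2 hx4).mono hmem
            · have : x = s + τ := by rcases hσ with rfl | rfl <;> omega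
              rw [this]
              exact hvT'
        · exfalso
          apply hv
          refine uniq hU hd hbox hvb hσ (x := s + τ) (by omega) (h7 _ ?_ ?_ ?_) (h8 _ ?_ ?_ ?_) hvT <;>
            rcases hσ with rfl | rfl <;> omega
      · have hτσ' : τ = -σ := by rcases hσ with rfl | rfl <;> rcases hτ with rfl | rfl <;> omega
        exfalso
        apply hv
        have hσ' : -σ = 1 ∨ -σ = -1 := by rcases hσ with rfl | rfl <;> simp
        subst hτσ'
        refine uniq hU hd hbox hvb hσ' (x := s + -σ) (by omega) (h8 _ ?_ ?_ ?_)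
          (by rw [neg_neg]; exact h9 _ (by rcases hσ with rfl | rfl <;> omega)
                (by rcases hσ with rfl | rfl <;> omega) (by rcases hσ with rfl | rfl <;> omega)) hvT <;>
          rcases hσ with rfl | rfl <;> omega

theorem DYN : StDyn := by
  intro hA hN hU d hd
  refine ⟨Inv d, ?_, ?_, ?_, ?_⟩
  · intro p hp
    refine ⟨?_, 1, lev p, p, lev p, 0, [], Or.inl rfl, ?_, rfl, rfl, by simp, Or.inl ⟨rfl, ?_⟩⟩
    · intro v hv
      rw [List.mem_singleton.1 hv]
      exact hp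
    · refine ⟨by simp, by simp, ?_, ?_, by simp, by simp, by simp, by simp, ?_, ?_⟩ <;>
        intro x hx <;> rw [List.mem_singleton.1 hx] <;> simp
    · intro x _ h1 h2
      exfalso
      omega
  · intro p q hp hq hpq
    have hl := adj_lev hpq
    refine ⟨?_, 1, lev q, q, lev q, 0, [(p, lev q, 0)], Or.inl rfl, ?_, rfl, rfl, by simp,
      Or.inl ⟨rfl, ?_⟩⟩
    · intro v hv
      simp only [List.mem_cons, List.not_mem_nil, or_false] at hv
      rcases hv with rfl | rfl
      · exact hq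
      · exact hp
    · have hne : q ≠ p := by
        rintro rfl
        unfold Adj at hpq
        simp at hpq
      have hs := adj_symm hpq
      refine ⟨by simpa using hne, by simpa using hs, ?_, ?_, by simp, by simp, by simp, by simp,
        ?_, ?_⟩ <;> intro x hx <;>
        simp only [List.mem_cons, List.not_mem_nil, or_false] at hx <;> rcases hx with rfl | rfl <;>
        simp
      rw [abs_le]
      omega
    · intro x _ h1 h2
      exfalso
      omega
  · rintro P ⟨hbox, σ, s0, u, s, r, A, hσ, h, hP, -⟩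
    rw [← hP]
    refine ⟨hA σ s0 _ hσ h, ?_⟩
    rw [hP]
    exact hbox
  · rintro u rest v ⟨hbox, σ, s0, u', s, r, A, hσ, h, hP, hu, hs, hRC⟩ hvb huv hv
    have hu' : u' = u := by
      rw [List.map_cons] at hP
      exact (List.cons.inj hP).1
    subst hu'
    rw [← hP] at hbox hv hRC ⊢
    exact step hA hN hU hd hσ h hu hs hRC hbox hvb huv hv

end Pool.Agent.K7.H55.UK
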